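import Mathlib

set_option autoImplicit false

namespace Pool.Agent.Results.MP_e16cda_ag.Q1

open Complex ComplexConjugate

noncomputable def wt {g : ℕ} (u : Fin g → ℂ) (B : Matrix (Fin g) (Fin g) ℂ) (n : Fin g → ℤ) : ℂ :=
  Complex.exp (2 * Real.pi * (∑ i, (n i : ℂ) * u i - 1 / 2 * ∑ i, ∑ j, (n i : ℂ) * B i j * (n j : ℂ)))

noncomputable def theta {g : ℕ} (u : Fin g → ℂ) (B : Matrix (Fin g) (Fin g) ℂ) : ℂ :=
  ∑' n : Fin g → ℤ, wt u B n

noncomputable def pmf {g : ℕ} (u : Fin g → ℂ) (B : Matrix (Fin g) (Fin g) ℂ) (n : Fin g → ℤ) : ℂ :=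
  wt u B n / theta u B

noncomputable def mom {g : ℕ} (u : Fin g → ℂ) (B : Matrix (Fin g) (Fin g) ℂ) (α : Fin g → ℕ) : ℂ :=
  ∑' n : Fin g → ℤ, (∏ i, (n i : ℂ) ^ α i) * pmf u B n

def Siegel {g : ℕ} (B : Matrix (Fin g) (Fin g) ℂ) : Prop := B.IsSymm ∧ (B.map Complex.re).PosDef

noncomputable def S (m : ℕ) (q : ℂ) : ℂ := ∑' n : ℤ, (n : ℂ) ^ m * q ^ (n.natAbs ^ 2)
noncomputable def gg (m : ℕ) (q : ℂ) (k : ℕ) : ℂ := (k : ℂ) ^ m * q ^ (k ^ 2)
noncomputable def T (m : ℕ) (q : ℂ) : ℂ := ∑' k : ℕ, gg m q (k + 4)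

theorem sq_le (k : ℕ) : (k + 4) ^ 2 ≤ 16 * 2 ^ k := by
  induction k with
  | zero => norm_num
  | succ k ih => rw [pow_succ 2 k]; nlinarith [Nat.zero_le (k ^ 2), Nat.zero_le k]

theorem gg_le {m : ℕ} (hm : m ≤ 2) {q : ℂ} (hq : ‖q‖ ≤ 16 / 25) (k : ℕ) :
    ‖gg m q (k + 4)‖ ≤ 1 / 78 * (1 / 16 : ℝ) ^ k := by
  rw [gg, norm_mul, norm_pow, norm_pow, Complex.norm_natCast]
  have a : ((k + 4 : ℕ) : ℝ) ^ m ≤ 16 * 2 ^ k := by
    have : (k + 4) ^ m ≤ 16 * 2 ^ k := (Nat.pow_le_pow_right (by omega) hm).trans (sq_le k)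
    exact_mod_cast this
  have b : ‖q‖ ^ ((k + 4) ^ 2) ≤ (16 / 25 : ℝ) ^ 16 * ((16 / 25 : ℝ) ^ 8) ^ k := by
    rw [← pow_mul, ← pow_add]
    exact (pow_le_pow_left₀ (norm_nonneg _) hq _).trans
      (pow_le_pow_of_le_one (by norm_num) (by norm_num) (by nlinarith))
  calc _ ≤ (16 * 2 ^ k) * ((16 / 25 : ℝ) ^ 16 * ((16 / 25 : ℝ) ^ 8) ^ k) := by gcongr
    _ = (16 * (16 / 25 : ℝ) ^ 16) * (2 * (16 / 25 : ℝ) ^ 8) ^ k := by rw [mul_pow]; ring
    _ ≤ _ := by gcongr <;> norm_num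

theorem geo : HasSum (fun k : ℕ => 1 / 78 * (1 / 16 : ℝ) ^ k) (1 / 78 * (1 - 1 / 16)⁻¹) :=
  (hasSum_geometric_of_lt_one (by norm_num) (by norm_num)).mul_left _

theorem T_le {m : ℕ} (hm : m ≤ 2) {q : ℂ} (hq : ‖q‖ ≤ 16 / 25) : ‖T m q‖ ≤ 1 / 70 :=
  (tsum_of_norm_bounded geo (gg_le hm hq)).trans (by norm_num)

theorem T_cont {m : ℕ} (hm : m ≤ 2) : ContinuousOn (T m) {q | ‖q‖ ≤ 16 / 25} :=
  continuousOn_tsum (fun k => by unfold gg; fun_prop) geo.summable fun k q hq => gg_le hm hq k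

theorem S_eq {m : ℕ} (hm : m ≤ 2) (he : Even m) {q : ℂ} (hq : ‖q‖ ≤ 16 / 25) :
    S m q = 0 ^ m + 2 * (q + 2 ^ m * q ^ 4 + 3 ^ m * q ^ 9 + T m q) := by
  have s4 : Summable fun k => gg m q (k + 4) := Summable.of_norm_bounded geo.summable (gg_le hm hq)
  have s0 : Summable (gg m q) := (summable_nat_add_iff 4).1 s4
  have s1 : Summable fun k => gg m q (k + 1) := (summable_nat_add_iff 1).2 s0
  have e1 : (fun n : ℕ => (((n : ℤ) : ℂ)) ^ m * q ^ ((n : ℤ).natAbs ^ 2)) = gg m q := by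
    funext n; simp [gg]
  have e2 : (fun n : ℕ => (((-(n + 1) : ℤ) : ℂ)) ^ m * q ^ ((-(n + 1) : ℤ).natAbs ^ 2)) =
      fun k => gg m q (k + 1) := by
    funext n
    have : (-(n + 1) : ℤ).natAbs = n + 1 := by omega
    rw [this, gg]; push_cast; rw [he.neg_pow]
  have h := HasSum.of_nat_of_neg_add_one (f := fun n : ℤ => (n : ℂ) ^ m * q ^ (n.natAbs ^ 2))
    (m := ∑' k, gg m q k) (m' := ∑' k, gg m q (k + 1))
    (by rw [e1]; exact s0.hasSum) (by rw [e2]; exact s1.hasSum)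
  have a := s0.sum_add_tsum_nat_add 4
  have b := s0.sum_add_tsum_nat_add 1
  rw [S, h.tsum_eq]
  simp only [Finset.sum_range_succ, Finset.sum_range_zero, gg] at a b
  simp only [T, gg]
  norm_num at a b ⊢
  linear_combination b - 2 * a

theorem S_odd {m : ℕ} (h : Odd m) (q : ℂ) : S m q = 0 := by
  have := (Equiv.neg ℤ).tsum_eq fun n : ℤ => (n : ℂ) ^ m * q ^ (n.natAbs ^ 2)
  simp only [Equiv.neg_apply, Int.cast_neg, Int.natAbs_neg, h.neg_pow, neg_mul, tsum_neg] at this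
  unfold S
  linear_combination (-1 / 2 : ℂ) * this

theorem S_conj (m : ℕ) (q : ℂ) : S m (conj q) = conj (S m q) := by
  simp [S, Complex.conj_tsum]

noncomputable def qq (x : ℝ) : ℂ := ⟨x, 3 / 5⟩

theorem qq_le {x : ℝ} (hx : x ∈ Set.Icc (0 : ℝ) (1 / 5)) : ‖qq x‖ ≤ 16 / 25 := by
  rw [← abs_norm, ← abs_of_pos (by norm_num : (0 : ℝ) < 16 / 25), ← sq_le_sq, Complex.sq_norm,
    Complex.normSq_apply]
  simp only [qq]; nlinarith [hx.1, hx.2]

theorem bd {z : ℂ} (h : ‖z‖ ≤ 1 / 70) : |z.re| ≤ 1 / 70 ∧ |z.im| ≤ 1 / 70 :=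
  ⟨(Complex.abs_re_le_norm z).trans h, (Complex.abs_im_le_norm z).trans h⟩

theorem key : ∃ q : ℂ, q.im = 3 / 5 ∧ ‖q‖ ≤ 16 / 25 ∧ S 0 q ≠ 0 ∧ (S 2 q * conj (S 0 q)).im = 0 := by
  let F : ℝ → ℝ := fun x => ((2 * (qq x + 4 * qq x ^ 4 + 9 * qq x ^ 9 + T 2 (qq x))) *
    conj (1 + 2 * (qq x + qq x ^ 4 + qq x ^ 9 + T 0 (qq x)))).im
  have cq : Continuous qq := by
    have : qq = fun x : ℝ => (x : ℂ) + (3 / 5 : ℝ) * Complex.I := by
      funext x; apply Complex.ext <;> simp [qq]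
    rw [this]; fun_prop
  have cT : ∀ m ≤ 2, ContinuousOn (fun x => T m (qq x)) (Set.Icc (0 : ℝ) (1 / 5)) := fun m hm =>
    (T_cont hm).comp cq.continuousOn fun x hx => qq_le hx
  have cF : ContinuousOn F (Set.Icc (0 : ℝ) (1 / 5)) := by
    refine Complex.continuous_im.comp_continuousOn (ContinuousOn.mul ?_
      (Complex.continuous_conj.comp_continuousOn ?_))
    · exact continuousOn_const.mul (ContinuousOn.add (by fun_prop) (cT 2 le_rfl))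
    · exact continuousOn_const.add (continuousOn_const.mul
        (ContinuousOn.add (by fun_prop) (cT 0 (by norm_num))))
  have ev : ∀ x ∈ Set.Icc (0 : ℝ) (1 / 5), ∀ a b : ℂ, qq x + 4 * qq x ^ 4 + 9 * qq x ^ 9 = a →
      qq x + qq x ^ 4 + qq x ^ 9 = b → ∃ s t u v : ℝ, |s| ≤ 1 / 70 ∧ |t| ≤ 1 / 70 ∧ |u| ≤ 1 / 70 ∧
      |v| ≤ 1 / 70 ∧ F x = 2 * (a.im + t) * (1 + 2 * (b.re + u)) - 2 * (a.re + s) * (2 * (b.im + v)) := by
    intro x hx a b ha hb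
    have h2 := bd (T_le (m := 2) le_rfl (qq_le hx))
    have h0 := bd (T_le (m := 0) (by norm_num) (qq_le hx))
    refine ⟨_, _, _, _, h2.1, h2.2, h0.1, h0.2, ?_⟩
    simp only [F, ha, hb]
    simp
    ring
  have F0 : 0 ≤ F 0 := by
    obtain ⟨s, t, u, v, hs, ht, hu, hv, e⟩ := ev 0 (by norm_num)
      ⟨324 / 625, 3 / 5 + 9 * (3 / 5) ^ 9⟩ ⟨81 / 625, 3 / 5 + (3 / 5) ^ 9⟩
      (by apply Complex.ext <;> simp [qq, pow_succ] <;> norm_num)
      (by apply Complex.ext <;> simp [qq, pow_succ] <;> norm_num)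
    rw [e]; rw [abs_le] at hs ht hu hv
    simp only
    nlinarith [hs.1, hs.2, ht.1, ht.2, hu.1, hu.2, hv.1, hv.2]
  have F1 : F (1 / 5) ≤ 0 := by
    obtain ⟨s, t, u, v, hs, ht, hu, hv, e⟩ := ev (1 / 5) (by norm_num)
      ⟨1 / 5 + 4 * (28 / 625) + 9 * (7696 / 1953125), 3 / 5 - 4 * (96 / 625) - 9 * (30672 / 1953125)⟩
      ⟨1 / 5 + 28 / 625 + 7696 / 1953125, 3 / 5 - 96 / 625 - 30672 / 1953125⟩
      (by apply Complex.ext <;> simp [qq, pow_succ] <;> norm_num)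
      (by apply Complex.ext <;> simp [qq, pow_succ] <;> norm_num)
    rw [e]; rw [abs_le] at hs ht hu hv
    simp only
    nlinarith [hs.1, hs.2, ht.1, ht.2, hu.1, hu.2, hv.1, hv.2]
  obtain ⟨x, hx, h⟩ := intermediate_value_Icc' (by norm_num) cF ⟨F1, F0⟩
  have hq := qq_le hx
  have e0 := S_eq (m := 0) (by norm_num) (by decide) hq
  have e2 := S_eq (m := 2) le_rfl (by decide) hq
  refine ⟨qq x, rfl, hq, fun h0 => ?_, ?_⟩
  · have i := congrArg Complex.im (e0.symm.trans h0)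
    have a4 : |(qq x ^ 4).im| ≤ (16 / 25) ^ 4 := (Complex.abs_im_le_norm _).trans (by
      rw [norm_pow]; gcongr)
    have a9 : |(qq x ^ 9).im| ≤ (16 / 25) ^ 9 := (Complex.abs_im_le_norm _).trans (by
      rw [norm_pow]; gcongr)
    have a0 := (bd (T_le (m := 0) (by norm_num) hq)).2
    have qi : (qq x).im = 3 / 5 := rfl
    rw [abs_le] at a4 a9 a0
    simp only [pow_zero, one_mul, add_im, mul_im, one_im, re_ofNat, im_ofNat, zero_im, qi] at i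
    norm_num at a4 a9
    linarith [a4.1, a9.1, a0.1]
  · rw [e0, e2, ← h]
    simp only [F]
    norm_num

noncomputable def BB (q : ℂ) : Matrix (Fin 1) (Fin 1) ℂ := Matrix.of fun _ _ => - Complex.log q / Real.pi

theorem wt_eq {q : ℂ} (hq : q ≠ 0) (n : Fin 1 → ℤ) : wt 0 (BB q) n = q ^ ((n 0).natAbs ^ 2) := by
  have hp : (Real.pi : ℂ) ≠ 0 := by exact_mod_cast Real.pi_ne_zero
  have e : (((n 0).natAbs ^ 2 : ℕ) : ℂ) = (n 0 : ℂ) ^ 2 := by
    have := Int.natAbs_sq (n 0)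
    have h2 := congrArg (Int.cast : ℤ → ℂ) this
    rw [Int.cast_pow, Int.cast_pow, Int.cast_natCast] at h2
    rw [Nat.cast_pow, h2]
  conv_rhs => rw [← Complex.exp_log hq, ← Complex.exp_nat_mul, e]
  unfold wt
  congr 1
  simp [BB]
  field_simp

theorem theta_eq {q : ℂ} (hq : q ≠ 0) : theta 0 (BB q) = S 0 q := by
  simp only [theta, wt_eq hq, S, pow_zero, one_mul]
  exact (Equiv.funUnique (Fin 1) ℤ).tsum_eq fun n : ℤ => q ^ (n.natAbs ^ 2)

theorem mom_eq {q : ℂ} (hq : q ≠ 0) (α : Fin 1 → ℕ) : mom 0 (BB q) α = S (α 0) q / S 0 q := by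
  simp only [mom, pmf, theta_eq hq, wt_eq hq, Fin.prod_univ_one, ← mul_div_assoc, tsum_div_const]
  congr 1
  exact (Equiv.funUnique (Fin 1) ℤ).tsum_eq fun n : ℤ => (n : ℂ) ^ α 0 * q ^ (n.natAbs ^ 2)

theorem siegel {q : ℂ} (hq : q ≠ 0) (h : ‖q‖ ≤ 16 / 25) : Siegel (BB q) := by
  refine ⟨by ext i j; rfl, ?_⟩
  have : (BB q).map Complex.re = Matrix.diagonal fun _ => - Real.log ‖q‖ / Real.pi := by
    ext i j
    rw [Subsingleton.elim i j]
    simp [BB, Complex.div_ofReal_re, Complex.log_re]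
  rw [this, Matrix.posDef_diagonal_iff]
  intro _
  exact div_pos (neg_pos.2 (Real.log_neg (norm_pos_iff.2 hq) (by linarith))) Real.pi_pos

theorem result : ∃ (g : ℕ) (u u' : Fin g → ℂ) (B B' : Matrix (Fin g) (Fin g) ℂ), 1 ≤ g ∧
    Siegel B ∧ Siegel B' ∧ theta u B ≠ 0 ∧ theta u' B' ≠ 0 ∧
    (∀ α : Fin g → ℕ, ∑ i, α i ≤ 3 → mom u B α = mom u' B' α) ∧ pmf u B ≠ pmf u' B' := by
  obtain ⟨q, hi, hn, h0, h2⟩ := key
  have hq : q ≠ 0 := by rintro rfl; norm_num at hi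
  have hq' : conj q ≠ 0 := by simpa using hq
  have h0' : conj (S 0 q) ≠ 0 := by simpa using h0
  refine ⟨1, 0, 0, BB q, BB (conj q), le_rfl, siegel hq hn, siegel hq' (by simpa using hn),
    by rwa [theta_eq hq], by rwa [theta_eq hq', S_conj], fun α hα => ?_, fun h => ?_⟩
  · rw [mom_eq hq, mom_eq hq']
    rw [Fin.sum_univ_one] at hα
    generalize α 0 = m at hα
    interval_cases m
    · rw [S_conj, div_self h0, div_self h0']
    · rw [S_odd (m := 1) (by decide) q, S_odd (m := 1) (by decide) (conj q)]; simp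
    · rw [S_conj, S_conj, div_eq_div_iff h0 h0']
      have := Complex.conj_eq_iff_im.2 h2
      rw [← this]; simp
    · rw [S_odd (m := 3) (by decide) q, S_odd (m := 3) (by decide) (conj q)]; simp
  · have a := congrFun h (fun _ => 0)
    have b := congrFun h (fun _ => 1)
    simp only [pmf, wt_eq hq, wt_eq hq', theta_eq hq, theta_eq hq', S_conj] at a b
    norm_num at a b
    rw [← a, div_left_inj' h0] at b
    have := Complex.conj_eq_iff_im.1 b.symm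
    rw [hi] at this; norm_num at this

end Pool.Agent.Results.MP_e16cda_ag.Q1
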